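import Pool.Agent.Q138.TopeMagExample

set_option autoImplicit false

namespace Pool.Agent.Results.MP_0e848e_co.OddRank

open Q138.TopeMag

/-- The assertion of Q1: for every arrangement of odd rank at least three, with `n` hyperplanes,
the tope graph is not vertex-transitive if and only if the `2n`-th cyclotomic polynomial divides
the reduced denominator of the magnitude. -/
def Question : Prop :=
  ∀ (d : ℕ) (A : Arrangement d), Odd A.rank → 3 ≤ A.rank →
    (¬ VertexTransitive A.topeGraph ↔ Polynomial.cyclotomic (2 * A.size) ℚ ∣ A.magnitude.denom)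

/-- Q1 is false, and it fails in every odd rank at least five: there is an arrangement whose tope
graph is not vertex-transitive although the `2n`-th cyclotomic polynomial does not divide the
reduced denominator of the magnitude. -/
theorem result :
    ¬ Question ∧
      ∀ r : ℕ, Odd r → 5 ≤ r → ∃ (d : ℕ) (A : Arrangement d), A.rank = r ∧
        ¬ VertexTransitive A.topeGraph ∧
        ¬ (Polynomial.cyclotomic (2 * A.size) ℚ ∣ A.magnitude.denom) := by
  have main : ∀ r : ℕ, Odd r → 5 ≤ r → ∃ (d : ℕ) (A : Arrangement d), A.rank = r ∧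
        ¬ VertexTransitive A.topeGraph ∧
        ¬ (Polynomial.cyclotomic (2 * A.size) ℚ ∣ A.magnitude.denom) := by
    intro r hr hr5
    obtain ⟨k, rfl⟩ : ∃ k, r = 3 + k := ⟨r - 3, by omega⟩
    refine ⟨3 + k, ex k, ex_rank k, ex_not_vertexTransitive k, ?_⟩
    rw [ex_size]
    refine ex_cyclotomic k (2 * (4 + k)) (by omega) ?_
    intro h
    have h1 := Nat.le_of_dvd (by norm_num) h
    omega
  refine ⟨fun hQ => ?_, main⟩
  obtain ⟨d, A, h1, h2, h3⟩ := main 5 (by decide) le_rfl
  exact h3 ((hQ d A (by rw [h1]; decide) (by rw [h1]; norm_num)).1 h2)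

end Pool.Agent.Results.MP_0e848e_co.OddRank
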